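import Mathlib
import Pool.Agent.H79.OIDefs
import Pool.Agent.H79.OI4

set_option autoImplicit false

open Pool.Agent.H79.OIDefs Pool.Agent.H79.OI

/-- Over every field there is a finitely generated graded OI-module over the polynomial OI-algebra
with `c = 1` whose regularity is not eventually linear; in positive characteristic the same holds
for FI. -/
theorem Pool.Agent.Results.MP_9ec07c_ag.NotLinear.result (K : Type) [Field K] (κ : Kind)
    (h : κ = Kind.OI ∨ ringChar K ≠ 0) :
    ∃ (A : PMod κ K) (G : A.Grading), G.FG ∧ (∀ n, 1 ≤ n → Nontrivial (A.M n)) ∧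
      ¬ G.RegLinear := by
  obtain ⟨A, h1, h2, h3⟩ := exists_family (K := K) κ h
  exact ⟨PM A h1, GM A h1, GM_fg A h1, PM_nontrivial A h1, not_regLinear A h1 h2 h3⟩
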